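import Pool.Agent.N733.TG.K
import Pool.Agent.N375.AV.D
import Pool.Agent.Results.MP_cda23d_nt.InvariantWindows

/-!
# Uniformity for all elliptic curves whose invariant is near the values of multiplicative and additive functions

For every `ε > 0` there are `P` and `c > 0` with the following property. Let `G` be a function with steps bounded below by a
positive constant and growth at most `v ^ d` (for example `b v ^ d`), `κ ≥ 0` and `d ε + κ < 1`. Call `m` bad for `f` if for
some rational number `j` of height `H(j)` with `|H(j) - G (f m)| ≤ f(m) ^ κ`, some elliptic curve `E` over `ℚ` with invariant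
`j` and some prime `p` with `P ≤ p ≤ exp (c √(log H(j)))` the order of the image of `Gal(ℚ̄/ℚ)` in `Aut(E[p])` is prime to `p`.

* Let `f` be a positive multiplicative function of at most polynomial growth with `f p ≤ M p` at the large primes `p` and with
  different values at different large primes, for example Euler's function or the sum of the divisors. Then at most
  `N / (log N) ^ U` of the `m ≤ N` are bad, for every `U` and all large `N`.
* Let `f` be a composition of `r` functions dominated by the largest prime factor, for example additive functions such as the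
  sum of the prime factors, the largest prime factor, Kempner's function. Then at most `K N exp (-b (log N) ^ (1 / (r + 1)))`
  of the `m ≤ N` are bad.

The values of these functions are in general taken with very large multiplicities, and so this does not follow from the number
of the exceptional invariants alone. (The starting files treat the heights near sequences with one real parameter.)

Proof. The number of the exceptional invariants of height at most `X` is at most `C X^ε` (starting theorem
`ExplicitWithoutSL`, in the form `InvariantWindows.count`); the preimages are bounded by the starting theorems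
`Pool.Agent.N733.TG.keep_windows` and `Pool.Agent.N375.AV.windows`.
-/

set_option autoImplicit false

open WeierstrassCurve

namespace Pool.Agent.Results.MP_cda23d_nt.ArithmeticValues

open InvariantWindows (invariant OrderDivisible ht Exc count)
open Pool.Agent.N733.TG (LM Expanding lm_totient lm_sigma keep_windows expanding_pow)
open Pool.Agent.N375.AV (PD comp windows pd_additive pd_largest pd_kempner)

/-- for all elliptic curves `y² = x³ + Ax + B` over `ℚ` whose invariant has a height `H` with `|H - y| ≤ w` and all primes `p`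
with `P ≤ p ≤ exp (c √(log H))` the order of the image of the Galois group in `Aut(E[p])` is divisible by `p` -/
def Uniform (P : ℕ) (c y w : ℝ) : Prop :=
  ∀ A B : ℚ, 4 * A ^ 3 + 27 * B ^ 2 ≠ 0 → |(ht (invariant A B) : ℝ) - y| ≤ w →
    ∀ p : ℕ, p.Prime → P ≤ p → (p : ℝ) ≤ Real.exp (c * Real.sqrt (Real.log (ht (invariant A B) : ℝ))) →
      OrderDivisible A B p

lemma exists_exc {P : ℕ} {c y w : ℝ} (h : ¬ Uniform P c y w) : ∃ j ∈ Exc P c, |(ht j : ℝ) - y| ≤ w := by
  unfold Uniform at h
  push Not at h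
  obtain ⟨A, B, hAB, hw, p, hp, hPp, hpc, hcon⟩ := h
  exact ⟨invariant A B, ⟨A, B, hAB, rfl, p, hp, hPp, hpc, hcon⟩, hw⟩

/-- **Theorem.** For every `ε > 0` there are `P` and `c > 0` such that for all `G` with steps `≥ a > 0` and growth at most
`v ^ d`, `κ ≥ 0` and `d ε + κ < 1`: (1) for `f` multiplicative and positive, of at most polynomial growth, with `f p ≤ M p` at
the large primes and injective there, every `U` and all large `N`, for all `m ≤ N` but `N / (log N)^U` all elliptic curves with
invariant of a height within `f(m) ^ κ` of `G (f m)` satisfy the conclusion; (2) for compositions `F` of `r` functions dominated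
by the largest prime factor there are `b > 0`, `K` such that this holds with `F` in place of `f` for all `m ≤ N` but
`K N exp (-b (log N) ^ (1 / (r + 1)))`. (3) Examples of `f`, of the functions dominated by the largest prime factor, and of
`G`. -/
theorem result :
    (∀ ε : ℝ, 0 < ε → ∃ (P : ℕ) (c : ℝ), 0 < c ∧
      ∀ (G : ℕ → ℝ) (d : ℝ), Expanding G d → ∀ κ : ℝ, 0 ≤ κ → d * ε + κ < 1 →
      (∀ f : ℕ → ℕ, LM f → ∀ U : ℕ, ∃ N₀ : ℕ, ∀ N : ℕ, N₀ ≤ N →
        ({m : ℕ | 1 ≤ m ∧ m ≤ N ∧ ¬ Uniform P c (G (f m)) ((f m : ℝ) ^ κ)}.ncard : ℝ) ≤ N / Real.log N ^ U) ∧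
      (∀ fs : List (ℕ → ℕ), (∀ f ∈ fs, PD f) → ∃ b K : ℝ, 0 < b ∧ ∀ N : ℕ, 1 ≤ N →
        ({m : ℕ | 1 ≤ m ∧ m ≤ N ∧ ¬ Uniform P c (G (comp fs m)) ((comp fs m : ℝ) ^ κ)}.ncard : ℝ) ≤
          K * N * Real.exp (-(b * Real.log N ^ ((1 : ℝ) / (fs.length + 1)))))) ∧
    (LM Nat.totient ∧ LM (fun m => ∑ d ∈ m.divisors, d)) ∧
    ((∀ f : ℕ → ℕ, (∀ a b : ℕ, Nat.Coprime a b → f (a * b) = f a + f b) →
        (∃ C : ℕ, ∀ q j : ℕ, q.Prime → 1 ≤ j → f (q ^ j) ≤ C * q ^ j) →
        (∃ P : ℕ, ∀ p q : ℕ, p.Prime → q.Prime → P ≤ p → P ≤ q → f p = f q → p = q) → PD f) ∧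
      PD (fun n => n.primeFactors.sup id) ∧ PD (fun n => sInf {k : ℕ | n ∣ k.factorial})) ∧
    ∀ b d : ℝ, 0 < b → 1 ≤ d → Expanding (fun v => b * (v : ℝ) ^ d) d := by
  refine ⟨fun ε hε => ?_, ⟨lm_totient, lm_sigma⟩, ⟨fun f h1 h2 h3 => pd_additive h1 h2 h3, pd_largest, pd_kempner⟩,
    fun b d hb hd => expanding_pow hb hd⟩
  obtain ⟨P, c, hc, hcount⟩ := count ε hε
  refine ⟨P, c, hc, fun G d hG κ hκ h1 => ⟨fun f hf U => ?_, fun fs hfs => ?_⟩⟩
  · obtain ⟨N₀, hN₀⟩ := keep_windows (Exc P c) (fun j : ℚ => (ht j : ℝ)) hf hG (s := ε) (κ := κ) hε.le hκ h1 hcount U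
    refine ⟨N₀, fun N hN => le_trans ?_ (hN₀ N hN)⟩
    have hfin : {m : ℕ | 1 ≤ m ∧ m ≤ N ∧ ∃ j ∈ Exc P c, |(ht j : ℝ) - G (f m)| ≤ (f m : ℝ) ^ κ}.Finite :=
      (Set.finite_Icc 1 N).subset fun m hm => ⟨hm.1, hm.2.1⟩
    refine Nat.cast_le.2 (Set.ncard_le_ncard ?_ hfin)
    rintro m ⟨h3, h4, h5⟩
    exact ⟨h3, h4, exists_exc h5⟩
  · obtain ⟨b, K, hb, hK⟩ := windows (Exc P c) (fun j : ℚ => (ht j : ℝ)) fs hfs hG (s := ε) (κ := κ) hε.le hκ h1 hcount
    refine ⟨b, K, hb, fun N hN => le_trans ?_ (hK N hN)⟩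
    have hfin : {m : ℕ | 1 ≤ m ∧ m ≤ N ∧ ∃ j ∈ Exc P c,
        |(ht j : ℝ) - G (comp fs m)| ≤ (comp fs m : ℝ) ^ κ}.Finite :=
      (Set.finite_Icc 1 N).subset fun m hm => ⟨hm.1, hm.2.1⟩
    refine Nat.cast_le.2 (Set.ncard_le_ncard ?_ hfin)
    rintro m ⟨h3, h4, h5⟩
    exact ⟨h3, h4, exists_exc h5⟩

end Pool.Agent.Results.MP_cda23d_nt.ArithmeticValues
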