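import Pool.Agent.Run7.h95.LF.Full
import Pool.Agent.Results.MP_cda23d_nt.InvariantWindows

/-!
# Uniformity for all elliptic curves whose invariant is near the values of generic linear forms

Let `v_i`, `i` in a countable set, be vectors in `ℝ^k` such that for every `ε > 0` at most `C X ^ (τ + ε)` of them have norm at
most `X`; for instance all `(b_1^(n_1), …, b_k^(n_k))` with `b_j > 1` (`τ = 0`), all `(1, n, …, n^d)` (`τ = 1 / d`), or all
`(n_1^(a_1), …, n_k^(a_k))` (`τ` the sum of the `1 / a_j`).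
For every `ε > 0` there are `N` and `c > 0` such that for all `0 ≤ θ < 1`:

* for all `α` in `ℝ^k` outside a set of Hausdorff dimension at most `k - 1 + (ε + τ) / (1 - θ)`, every `w` and all but finitely
  many `i`, for ALL rational numbers `j` of height `H(j)` with `|H(j) - (α_1 v_(i,1) + … + α_k v_(i,k))| ≤ w |v_i|^θ`, ALL
  elliptic curves `E` over `ℚ` with invariant `j` and ALL primes `p` with `N ≤ p ≤ exp (c √(log H(j)))` the order of the image
  of `Gal(ℚ̄/ℚ)` in `Aut(E[p])` is divisible by `p`;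
* for all real `2 × k` matrices `α` outside a set of dimension at most `2 (k - 1) + (ε + τ) / (1 - θ)` (less than `2 k` for
  `θ < 1 - (ε + τ) / 2`) the same holds for all `j = a / b` (in lowest terms) with `|a - (α v_i)_1| ≤ w |v_i|^θ` and
  `|b - (α v_i)_2| ≤ w |v_i|^θ`: a thin family of long square windows in the plane.

(The starting files treat the heights near `f_n(α)`, starshaped, with one parameter `α`.)

Proof. The number of the exceptional invariants of height at most `X` is at most `C X^ε` (starting theorem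
`ExplicitWithoutSL`, in the form `InvariantWindows.count`). The `α` with an exceptional invariant in the window of `v_i` form
slabs, which are covered by few small cubes (`Pool.Agent.N251.LF`).
-/

set_option autoImplicit false

open WeierstrassCurve

namespace Pool.Agent.Results.MP_cda23d_nt.GenericLinearForms

open InvariantWindows (invariant OrderDivisible ht Exc count)
open Pool.Agent.N251.LF (Fam Sq examples)
open Run7.h95.LF (full full_mat)

/-- numerator and denominator of a rational number, as real numbers -/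
noncomputable def nd (j : ℚ) : Fin 2 → ℝ := ![(j.num : ℝ), (j.den : ℝ)]

lemma nd_le {j : ℚ} {X : ℝ} (h : ∀ l, |nd j l| ≤ X) : (ht j : ℝ) ≤ X := by
  have h0 : |(j.num : ℝ)| ≤ X := h 0
  have h1 : |(j.den : ℝ)| ≤ X := h 1
  have ha : |(j.num : ℝ)| = (j.num.natAbs : ℝ) := by
    rw [← Int.cast_abs, Int.abs_eq_natAbs]
    simp
  rw [ha] at h0
  rw [abs_of_nonneg (Nat.cast_nonneg _)] at h1
  unfold ht
  rw [Nat.cast_max]
  exact max_le h0 h1

/-- **Theorem.** For every `ε > 0` there are `N` and `c > 0` such that for every family `v` of vectors in `ℝ^k` with at most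
`C X ^ (τ + η)` members of norm at most `X`, for every `η > 0`, and `0 ≤ θ < 1`: (1) there is a set `E` of Hausdorff dimension
at most `k - 1 + (ε + τ) / (1 - θ)` (less than `k`, and of measure zero, if `θ < 1 - ε - τ`) such that for each `α` in `ℝ^k`
outside `E`, each `w` and all but finitely many `i`, for ALL rational numbers `A, B` with `4A³ + 27B² ≠ 0` such that the height
`H` of the invariant of `y² = x³ + Ax + B` satisfies `|H - ∑ α_l v_(i,l)| ≤ w ‖v_i‖ ^ θ` and ALL primes `p` with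
`N ≤ p ≤ exp (c √(log H))` the order of the image of the Galois group in `Aut(E[p])` is divisible by `p`; (2) there is a set
`E` of `2 × k` matrices of dimension at most `2 (k - 1) + (ε + τ) / (1 - θ)` (less than `2 k`, and of measure zero, if
`2 θ < 2 - ε - τ`) such that for each `α` outside `E` the same holds if the numerator and the denominator of the invariant are
within `w ‖v_i‖ ^ θ` of the two entries of `α v_i`. (3) Examples of families. -/
theorem result :
    (∀ ε : ℝ, 0 < ε → ∃ (N : ℕ) (c : ℝ), 0 < c ∧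
      ∀ (k : ℕ) (ι : Type) (v : ι → Fin k → ℝ) (τ θ : ℝ), 0 ≤ τ → 0 ≤ θ → θ < 1 → Fam v τ →
      (∃ E : Set (Fin k → ℝ), dimH E ≤ ENNReal.ofReal ((k : ℝ) - 1 + (ε + τ) / (1 - θ)) ∧
        (1 ≤ k → θ < 1 - ε - τ → dimH E < (k : ENNReal) ∧ MeasureTheory.volume E = 0) ∧
        ∀ α, α ∉ E → ∀ w : ℝ, {i | ¬ ∀ A B : ℚ, 4 * A ^ 3 + 27 * B ^ 2 ≠ 0 →
          |(ht (invariant A B) : ℝ) - ∑ l, α l * v i l| ≤ w * ‖v i‖ ^ θ →
            ∀ p : ℕ, p.Prime → N ≤ p → (p : ℝ) ≤ Real.exp (c * Real.sqrt (Real.log (ht (invariant A B) : ℝ))) →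
              OrderDivisible A B p}.Finite) ∧
      (∃ E : Set (Fin 2 × Fin k → ℝ), dimH E ≤ ENNReal.ofReal (2 * ((k : ℝ) - 1) + (ε + τ) / (1 - θ)) ∧
        (1 ≤ k → 2 * θ < 2 - ε - τ → dimH E < ((2 * k : ℕ) : ENNReal) ∧ MeasureTheory.volume E = 0) ∧
        ∀ α, α ∉ E → ∀ w : ℝ, {i | ¬ ∀ A B : ℚ, 4 * A ^ 3 + 27 * B ^ 2 ≠ 0 →
          |((invariant A B).num : ℝ) - ∑ l, α (0, l) * v i l| ≤ w * ‖v i‖ ^ θ →
          |((invariant A B).den : ℝ) - ∑ l, α (1, l) * v i l| ≤ w * ‖v i‖ ^ θ →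
            ∀ p : ℕ, p.Prime → N ≤ p → (p : ℝ) ≤ Real.exp (c * Real.sqrt (Real.log (ht (invariant A B) : ℝ))) →
              OrderDivisible A B p}.Finite)) ∧
    (∀ d : ℕ, 1 ≤ d → Fam (fun (n : ℕ) (j : Fin (d + 1)) => (n : ℝ) ^ (j : ℕ)) (1 / d)) ∧
    (∀ (k : ℕ) (b : Fin k → ℝ), (∀ j, 1 < b j) → Fam (fun (n : Fin k → ℕ) (j : Fin k) => b j ^ n j) 0) ∧
    (∀ (k : ℕ) (a : Fin k → ℝ), (∀ j, 0 < a j) →
      Fam (fun (n : Fin k → ℕ) (j : Fin k) => (n j : ℝ) ^ a j) (∑ j, 1 / a j)) ∧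
    ∀ (k : ℕ) (u : Fin k → ℕ → ℝ) (τ : Fin k → ℝ), (∀ j, Sq (u j) (τ j)) →
      Fam (fun (n : Fin k → ℕ) (j : Fin k) => u j (n j)) (∑ j, τ j) := by
  refine ⟨fun ε hε => ?_, examples⟩
  obtain ⟨N, c, hc, hcount⟩ := count ε hε
  refine ⟨N, c, hc, fun k ι v τ θ hτ hθ0 hθ1 hv => ⟨?_, ?_⟩⟩
  · obtain ⟨E, h1, h2, h3⟩ := full (Exc N c) (fun j => (ht j : ℝ)) v hε.le hτ hθ1 hv hcount
    refine ⟨E, h1, h2, fun α hα w => (h3 α hα w).subset ?_⟩
    intro i hi
    simp only [Set.mem_ofPred_eq] at hi ⊢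
    push Not at hi
    obtain ⟨A, B, hAB, hw, p, hp, hNp, hpc, hcon⟩ := hi
    exact ⟨invariant A B, ⟨A, B, hAB, rfl, p, hp, hNp, hpc, hcon⟩, hw⟩
  · obtain ⟨E, h1, h2, h3⟩ := full_mat (Exc N c) nd v hε.le hτ hθ1 hv (by
      intro η hη
      obtain ⟨C, hC⟩ := hcount η hη
      refine ⟨C, fun X hX => ?_⟩
      obtain ⟨f1, f2⟩ := hC X hX
      have hsub : {t | t ∈ Exc N c ∧ ∀ l, |nd t l| ≤ X} ⊆ {j | j ∈ Exc N c ∧ (ht j : ℝ) ≤ X} :=
        fun t ht => ⟨ht.1, nd_le ht.2⟩
      exact ⟨f1.subset hsub, le_trans (by exact_mod_cast Set.ncard_le_ncard hsub f1) f2⟩)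
    refine ⟨E, by simpa using h1, fun hk hlt => h2 (by norm_num) hk (by push_cast; linarith), fun α hα w =>
      (h3 α hα w).subset ?_⟩
    intro i hi
    simp only [Set.mem_ofPred_eq] at hi ⊢
    push Not at hi
    obtain ⟨A, B, hAB, hw1, hw2, p, hp, hNp, hpc, hcon⟩ := hi
    refine ⟨invariant A B, ⟨A, B, hAB, rfl, p, hp, hNp, hpc, hcon⟩, fun l => ?_⟩
    fin_cases l
    · exact hw1
    · exact hw2

end Pool.Agent.Results.MP_cda23d_nt.GenericLinearForms
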