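import Pool.Agent.Run7.h197.N.Near
import Pool.Agent.Run7.h61.UF.Curves

/-!
# MP_cda23d_nt: Serre's uniformity in one-parameter families, parameters near algebraic points

Let `K` be a number field (for instance `ℚ`), `j = F/G` a rational function over `K` in lowest terms,
`A` a finite set of algebraic numbers and `S` a finite set of primes.

**Theorem.** There are `p₀` and a FINITE set `E` of parameters such that for all `t ∈ K` outside `E`
which are admissible, ALL primes `p ≥ p₀`, ALL number fields `L ⊇ K` with `[L : ℚ] < p` and ALL
elliptic curves over `L` with invariant `j(t)` the image of `Gal(L̄/L)` in `Aut(E[p])` contains an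
element of order `p`; and it contains `SL₂(𝔽_p)`, or `E` has a subgroup of order `p` rational over `L`.
Here `t` is admissible if the image of `t` in `ℂ` under some embedding `φ` is close to a point `a`
of `A ∪ {∞}`, that is `|φ(t) - a| ≤ H(t)^(-1/M)`, or `|φ(t)| ≥ H(t)^(1/M)` for `a = ∞`, where `j`
has two poles different from `a` on the projective line; or if `t` is `S`-integral and `j` has two
poles different from `∞`.

For `K = L = ℚ` the image has full determinant, and by the theorem of Mazur there are no rational
subgroups of order `p > 163`; so the representation is surjective for all `p ≥ max (p₀, 164)` and all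
curves over `ℚ` with invariant `j(t)`: a uniform bound, as asked for by Serre, with finitely many
exceptional `t`, where the open case (image in the normaliser of a nonsplit Cartan subgroup) is
excluded by the theorem. For instance, all families over `ℚ` with three multiplicative fibres, and
all rational `t` with `|t - a| ≤ H(t)^(-δ)`, `a` algebraic or infinite, `δ > 0` fixed, are covered.

Proof. If the image contains no element of order `p` then the orders of `j(t)` at its poles are
divisible by `p`, also at the places above `p` and the places below those of `L` (helper673, helper61: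
`Run7.h61.UF.pc_noOrd`). Hence, outside a finite set of places, `p` divides the positive orders of
`t - β` and `t - β'` for two poles of `j` up to bounded factors. After a Moebius transformation `t` is
large at an archimedean place, so `(t - β)/(t - β')` is close to `1`, and it is a product of a `p`-th
power and of powers of fixed numbers. This contradicts the lower bounds for linear forms in logarithms
that are sharp in one of the heights (`Run7.h197.BK`) if `p` is large.
-/

set_option autoImplicit false

open WeierstrassCurve NumberField Height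

namespace Pool.Agent.Results.MP_cda23d_nt.ParametersNearAlgebraicPoints

section
variable {K : Type} [Field K]

/-- The curve `y² = x³ + Ax + B` over the field `K`. -/
def curve (A B : K) : WeierstrassCurve K := ⟨0, 0, 0, A, B⟩

/-- Its `j`-invariant. -/
noncomputable def jInvariant (A B : K) : K := 6912 * A ^ 3 / (4 * A ^ 3 + 27 * B ^ 2)

open scoped Classical in
/-- The group of its points over the algebraic closure of `K`. -/
abbrev Points (A B : K) : Type := ((curve A B).baseChange (AlgebraicClosure K)).toAffine.Point

open scoped Classical in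
/-- The action of an automorphism `σ` of the algebraic closure on the points. -/
noncomputable def galois (A B : K) (σ : AlgebraicClosure K ≃ₐ[K] AlgebraicClosure K) :
    Points A B →+ Points A B :=
  WeierstrassCurve.Affine.Point.map (σ : AlgebraicClosure K →ₐ[K] AlgebraicClosure K)

open scoped Classical in
/-- The points `P` and `Q` form a basis of the `p`-torsion. -/
def IsBasis (A B : K) (p : ℕ) (P Q : Points A B) : Prop :=
  p • P = 0 ∧ p • Q = 0 ∧
    (∀ R : Points A B, p • R = 0 → ∃ m n : ℤ, R = m • P + n • Q) ∧
    ∀ m n : ℤ, m • P + n • Q = 0 → (p : ℤ) ∣ m ∧ (p : ℤ) ∣ n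

open scoped Classical in
/-- The image of the Galois group in the automorphism group of the `p`-torsion contains all
automorphisms of determinant `1`: there is a basis of the `p`-torsion in which every matrix of
determinant `1` modulo `p` is the matrix of some `σ`. -/
def ContainsSL (A B : K) (p : ℕ) : Prop :=
  ∃ P Q : Points A B, IsBasis A B p P Q ∧
    ∀ a b c d : ℤ, (p : ℤ) ∣ a * d - b * c - 1 →
      ∃ σ : AlgebraicClosure K ≃ₐ[K] AlgebraicClosure K,
        galois A B σ P = a • P + c • Q ∧ galois A B σ Q = b • P + d • Q

open scoped Classical in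
/-- The curve has a subgroup of order `p` stable under the Galois group: it is generated by a point
`P ≠ 0` killed by `p`, and all conjugates of `P` are multiples of `P`. -/
def HasRationalSubgroup (A B : K) (p : ℕ) : Prop :=
  ∃ P : Points A B, p • P = 0 ∧ P ≠ 0 ∧
    ∀ σ : AlgebraicClosure K ≃ₐ[K] AlgebraicClosure K,
      galois A B σ P ∈ AddSubgroup.zmultiples P

open scoped Classical in
/-- Some `σ` acts on the `p`-torsion as an automorphism whose `p`-th power is the identity, but not as
the identity: for a prime `p` the image of the Galois group has an element of order `p`. -/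
def HasElementOfOrder (A B : K) (p : ℕ) : Prop :=
  ∃ σ : AlgebraicClosure K ≃ₐ[K] AlgebraicClosure K,
    (∀ P : Points A B, p • P = 0 → galois A B (σ ^ p) P = P) ∧
    ∃ P : Points A B, p • P = 0 ∧ galois A B σ P ≠ P

/-- `t` is an `S`-integer. -/
def SInt (q : ℕ) (t : K) : Prop := ∃ k : ℕ, _root_.IsIntegral ℤ ((q : K) ^ k * t)

/-- The point of the complex projective line (`none` is the point at infinity) is a pole of `F/G`. -/
def Pole (F G : Polynomial K) (φ : K →+* ℂ) : Option ℂ → Prop
  | none => G.natDegree < F.natDegree
  | some b => (G.map φ).eval b = 0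

/-- `F/G` has two poles different from the point `a`. -/
def TwoPoles (F G : Polynomial K) (φ : K →+* ℂ) (a : Option ℂ) : Prop :=
  ∃ b c : Option ℂ, b ≠ c ∧ b ≠ a ∧ c ≠ a ∧ Pole F G φ b ∧ Pole F G φ c

/-- `φ(t)` is close to the point `a`: `|φ(t)| ≥ H(t)^(1/M)` for the point at infinity, otherwise
`|φ(t) - a| ≤ H(t)^(-1/M)`; `H(t)` is the product over all places of `K` of `max(1, |t|_v)`. -/
def Near [NumberField K] (φ : K →+* ℂ) (M : ℕ) (t : K) : Option ℂ → Prop
  | none => mulHeight₁ t ≤ ‖φ t‖ ^ M
  | some a => mulHeight₁ t * ‖φ t - a‖ ^ M ≤ 1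

/-- The admissible parameters: close to a point `a` of `A ∪ {∞}` such that `F/G` has two poles
different from `a`, or `S`-integral if `F/G` has two poles different from infinity. -/
def Admissible [NumberField K] (F G : Polynomial K) (A : Finset ℂ) (q M : ℕ) (t : K) : Prop :=
  ∃ (φ : K →+* ℂ) (a : Option ℂ), (∀ x, a = some x → x ∈ A) ∧ TwoPoles F G φ a ∧
    (Near φ M t a ∨ (a = none ∧ SInt q t))

end

open Pool.Agent.Y673.SL (HasSL)

theorem containsSL_of {K : Type} [Field K] [CharZero K] {A B : K}
    (hD : 4 * A ^ 3 + 27 * B ^ 2 ≠ 0) {p : ℕ} (hp : p.Prime) (h : HasSL A B p) :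
    ContainsSL A B p := by
  obtain ⟨P, Q, h1, h2, h3, h4, h5⟩ := h
  obtain ⟨h6, h7⟩ := Pool.Agent.Y673.SL.basis hD hp h1 h2 h3 h4
  exact ⟨P, Q, ⟨h1, h2, h6, h7⟩, h5⟩

/-- **Uniformity for parameters near algebraic points.** -/
theorem result (K : Type) [Field K] [NumberField K] (F G : Polynomial K) (hcop : IsCoprime F G)
    (hG : G ≠ 0) (A : Finset ℂ) (hA : ∀ x ∈ A, IsAlgebraic ℚ x) (q M : ℕ) (hq : q ≠ 0) :
    ∃ (p₀ : ℕ) (E : Set K), E.Finite ∧ ∀ t ∉ E, G.eval t ≠ 0 → Admissible F G A q M t →
      ∀ p, p.Prime → p₀ ≤ p → ∀ (L : Type) [Field L] [NumberField L] [Algebra K L],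
        Module.finrank ℚ L < p → ∀ a b : L, 4 * a ^ 3 + 27 * b ^ 2 ≠ 0 →
          jInvariant a b = algebraMap K L (F.eval t / G.eval t) →
            HasElementOfOrder a b p ∧ (ContainsSL a b p ∨ HasRationalSubgroup a b p) := by
  obtain ⟨n₀, hfin⟩ := Run7.h197.N.param_all F G hcop hG A hA ∅ Set.finite_empty q M 1 hq le_rfl
  refine ⟨n₀ + 11, _, hfin, ?_⟩
  rintro t ht hGt ⟨φ, x, hx, h2, h3⟩ p hp hp₀ L _ _ _ hL a b hD hj
  by_contra hex
  apply ht
  refine ⟨⟨φ, x, hx, ?_, ?_⟩, hGt, p, by omega, fun v _ hv => ?_⟩
  · obtain ⟨b, c, hbc, hb, hc, pb, pc⟩ := h2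
    refine ⟨b, c, hbc, hb, hc, ?_, ?_⟩
    · rcases b with _ | b <;> exact pb
    · rcases c with _ | c <;> exact pc
  · rcases h3 with h3 | h3
    · left
      rcases x with _ | x <;> exact h3
    · exact Or.inr h3
  · have hno : ¬ Pool.Agent.Y673.Loc.OrdP a b p := by
      intro hO
      refine hex ⟨hO, ?_⟩
      by_contra hcon
      rw [not_or] at hcon
      exact hcon.2 (Run7.h61.UF.line_of hD hp (fun h => hcon.1 (containsSL_of hD hp h)) hO)
    have h8 : 8 * Module.finrank ℚ L < p ^ 2 - 1 := by
      have h9 : 11 ≤ p := by omega
      have h10 : 8 * Module.finrank ℚ L + 8 ≤ 8 * p := by omega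
      have h11 : 11 * p ≤ p ^ 2 := by nlinarith
      omega
    have h4 := Run7.h61.UF.pc_noOrd hp (by omega) hL h8 hD hno hj v hv
    rw [Nat.cast_one, one_mul]
    exact h4

end Pool.Agent.Results.MP_cda23d_nt.ParametersNearAlgebraicPoints
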