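import Pool.Agent.Run7.h95.NP.Many
import Pool.Agent.Results.MP_cda23d_nt.GenericLinearForms

/-!
# Uniformity for all elliptic curves whose invariant is near products of linear forms

For every `ε > 0` there are `N` and `c > 0` such that for all `R, θ ≥ 0`, `h ≥ 1`, `0 ≤ σ ≤ 1` and for all integer vectors `x` in
`[-X, X]^D` with at most `C Q^(k h (D + 2)) X^(D - σ)` exceptions, `C` depending on `D`:

* (`k = 1`, `σ < h (1 - ε - θ)`) for ANY product `t = y_1 ⋯ y_h` of `h` linear forms, `y = M x + z` with `M` an integral matrix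
  of rank `h` and `z` an integral vector, the entries of `M` and `z` at most `Q`, all `y_j ≠ 0`, and for ALL rational numbers
  `j` of height `H(j)` with `|H(j) - |t|| ≤ R |t|^θ`, ALL elliptic curves `E` over `ℚ` with invariant `j` and ALL primes `p`
  with `N ≤ p ≤ exp (c √(log H(j)))` the order of the image of `Gal(ℚ̄/ℚ)` in `Aut(E[p])` is divisible by `p`;
* (`k = 2`, `σ < h (2 - ε - 2 θ)`) for ANY two such products `t_1`, `t_2` (`M` of rank `2 h`) the same holds for ALL `j = a / b`
  (in lowest terms) with `||a| - |t_1||` and `|b - |t_2||` at most `R |t|^θ`.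

Here `Q` can be a small power of `X`. We prove a similar result for the integer vectors near `N_n α`, `N_n` a lacunary sequence
(for instance the truncations of the expansions in base `g`, `N_n = g^n`), for all real vectors `α` outside a set of dimension
less than `D`, and `M`, `z` with entries up to a power of `N_n`.

The number of the exceptional invariants of height at most `X` is at most `C X^ε` (starting theorem `ExplicitWithoutSL`, in the
form `InvariantWindows.count`). The divisor bound shows that few vectors `y` have products near an exceptional invariant, and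
for each of the possible `M`, `z` the map `x ↦ M x + z` has small fibres (engine of helper469, `Run7/h469/Vm`, here extended to
windows). The file `GenericLinearForms` is about linear forms with real coefficients, outside a set of coefficients of small
dimension.
-/

set_option autoImplicit false

namespace Pool.Agent.Results.MP_cda23d_nt.ProductsOfLinearForms

open MeasureTheory
open InvariantWindows (invariant OrderDivisible ht Exc count)
open Run7.h469.Vk (Hits Lacunary Generic Avoids)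
open Run7.h469.Vm (ProductIn)

/-- Some prime `p` with `N ≤ p ≤ exp (c √(log H))`, `H` the height of the invariant of `y² = x³ + Ax + B`, does not divide the
order of the image of the Galois group in `Aut(E[p])`. -/
def SomePrime (N : ℕ) (c : ℝ) (A B : ℚ) : Prop :=
  ∃ p : ℕ, p.Prime ∧ N ≤ p ∧ (p : ℝ) ≤ Real.exp (c * Real.sqrt (Real.log (ht (invariant A B) : ℝ))) ∧
    ¬ OrderDivisible A B p

/-- The integers `t` (vectors with one coordinate) with an elliptic curve `y² = x³ + Ax + B` with such a prime, the height of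
whose invariant differs from `|t|` by at most `R |t| ^ θ`. -/
def BadHeight (N : ℕ) (c R θ : ℝ) : Set (Fin 1 → ℤ) :=
  {t | ∃ A B : ℚ, 4 * A ^ 3 + 27 * B ^ 2 ≠ 0 ∧
    |(ht (invariant A B) : ℝ) - (|(t 0 : ℝ)|)| ≤ R * |(t 0 : ℝ)| ^ θ ∧ SomePrime N c A B}

/-- The pairs `t` of integers with an elliptic curve `y² = x³ + Ax + B` with such a prime, the numerator and denominator of
whose invariant differ in absolute value from `|t_1|`, `|t_2|` by at most `R ‖t‖ ^ θ`. -/
def BadPair (N : ℕ) (c R θ : ℝ) : Set (Fin 2 → ℤ) :=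
  {t | ∃ A B : ℚ, 4 * A ^ 3 + 27 * B ^ 2 ≠ 0 ∧
    |(|((invariant A B).num : ℝ)|) - (|(t 0 : ℝ)|)| ≤ R * ‖fun i => (t i : ℝ)‖ ^ θ ∧
    |((invariant A B).den : ℝ) - (|(t 1 : ℝ)|)| ≤ R * ‖fun i => (t i : ℝ)‖ ^ θ ∧ SomePrime N c A B}

/-- **The conclusion.** (1) There is `C` such that for all `D` and `X, Q ≥ 1`, for all but
`C ((D + 1)^(k h) 3^((k h + 1) (D + 1))) Q^(k h (D + 2)) X^(D - σ)` of the integer vectors `x` in `[-X, X]^D` no `k`-tuple of
products `∏_(i ≤ h) y_(l,i)` of the nonzero coordinates of a vector `y = M x + z`, `M` integral of rank `k h`, with entries of `M`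
and `z` at most `Q`, is in `W`; (2) for lacunary `N_i` and `κ ≥ 0`, outside a set of `α` in `ℝ^D` of dimension at most
`D - σ + k h (D + 2) κ` (and almost everywhere for measures of larger dimension), for all `A'`, for all large `i` the same is
true for the integer vectors `x` with `|x - N_i α| ≤ A'` and `M`, `z` with entries at most `A' N_i^κ`; (3) in particular it is
true for almost all `α`, if `k h (D + 2) κ < σ`. -/
def ProductsAvoid {k : ℕ} (h : ℕ) (σ : ℝ) (W : Set (Fin k → ℤ)) : Prop :=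
  (∃ C : ℝ, ∀ D X Q : ℕ, 1 ≤ X → 1 ≤ Q →
    (({x : Fin D → ℤ | (∀ j, |x j| ≤ X) ∧ x ∈ Hits (ProductIn h W) D Q}.ncard : ℕ) : ℝ) ≤
      C * (((D : ℝ) + 1) ^ (k * h) * 3 ^ ((k * h + 1) * (D + 1))) * (Q : ℝ) ^ (k * h * (D + 2)) *
        (X : ℝ) ^ ((D : ℝ) - σ)) ∧
  (∀ D : ℕ, 1 ≤ D → ∀ N : ℕ → ℝ, Lacunary N → ∀ κ : ℝ, 0 ≤ κ →
    Generic ((D : ℝ) - σ + k * h * (D + 2) * κ) (fun α : Fin D → ℝ => Avoids (ProductIn h W) N κ α)) ∧
  ∀ D : ℕ, 1 ≤ D → ∀ N : ℕ → ℝ, Lacunary N → ∀ κ : ℝ, 0 ≤ κ → k * h * (D + 2) * κ < σ →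
    ∀ᵐ α : Fin D → ℝ, Avoids (ProductIn h W) N κ α

lemma mem_exc {N : ℕ} {c : ℝ} {A B : ℚ} (hAB : 4 * A ^ 3 + 27 * B ^ 2 ≠ 0) (h : SomePrime N c A B) :
    invariant A B ∈ Exc N c := by
  obtain ⟨p, hp, hNp, hpc, hcon⟩ := h
  exact ⟨A, B, hAB, rfl, p, hp, hNp, hpc, hcon⟩

/-- absolute values of numerator and denominator -/
noncomputable def nd (j : ℚ) : Fin 2 → ℝ := ![|(j.num : ℝ)|, (j.den : ℝ)]

lemma nd_le {j : ℚ} {X : ℝ} (h : ∀ l, nd j l ≤ X) : (ht j : ℝ) ≤ X := by
  have h0 : |(j.num : ℝ)| ≤ X := h 0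
  have h1 : (j.den : ℝ) ≤ X := h 1
  have ha : |(j.num : ℝ)| = (j.num.natAbs : ℝ) := by
    rw [← Int.cast_abs, Int.abs_eq_natAbs]
    simp
  rw [ha] at h0
  unfold ht
  rw [Nat.cast_max]
  exact max_le h0 h1

/-- **Theorem.** For every `ε > 0` there are `N` and `c > 0` such that for all `R, θ ≥ 0`, `h ≥ 1` and `0 ≤ σ ≤ 1`
(1) `ProductsAvoid h σ` holds for the set of the integers `t` for which `|H - |t|| ≤ R |t| ^ θ` for the height `H` of the
invariant of an elliptic curve `E` over `ℚ` such that some prime `p` with `N ≤ p ≤ exp (c √(log H))` does not divide the order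
of the image of the Galois group in `Aut(E[p])`, if `σ < h (1 - ε - θ)`; (2) the same for the set of the pairs `t` for which the
numerator and the denominator of the invariant are within `R ‖t‖ ^ θ` of `|t_1|`, `|t_2|` in absolute value, if
`σ < h (2 - ε - 2 θ)`. -/
theorem result (ε : ℝ) (hε : 0 < ε) : ∃ (N : ℕ) (c : ℝ), 0 < c ∧ ∀ R θ : ℝ, 0 ≤ R → 0 ≤ θ → ∀ h : ℕ, 1 ≤ h →
    ∀ σ : ℝ, 0 ≤ σ → σ ≤ 1 →
      (σ < h * (1 - ε - θ) → ProductsAvoid h σ (BadHeight N c R θ)) ∧
      (σ < h * (2 - ε - 2 * θ) → ProductsAvoid h σ (BadPair N c R θ)) := by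
  obtain ⟨N, c, hc, hcount⟩ := count ε hε
  refine ⟨N, c, hc, fun R θ hR hθ h hh σ hσ hσ1 => ⟨fun hlt => ?_, fun hlt => ?_⟩⟩
  · have key := Run7.h95.NP.near_many (k := 1) le_rfl hh hε.le hθ hR hσ hσ1 (by
      rw [Nat.cast_one, one_mul]
      exact hlt) (ι := ℚ) (Bad := fun j => j ∈ Exc N c) (φ := fun j _ => (ht j : ℝ)) (W := BadHeight N c R θ)
      (fun δ hδ => by
        obtain ⟨C, hC⟩ := hcount δ hδ
        refine ⟨C, fun X hX => ?_⟩
        obtain ⟨f1, f2⟩ := hC X hX
        have hsub : {j : ℚ | j ∈ Exc N c ∧ ∀ _ : Fin 1, (ht j : ℝ) ≤ X} ⊆ {j | j ∈ Exc N c ∧ (ht j : ℝ) ≤ X} :=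
          fun t ht => ⟨ht.1, ht.2 0⟩
        exact ⟨f1.subset hsub, le_trans (by exact_mod_cast Set.ncard_le_ncard hsub f1) f2⟩)
      (fun t htt => by
        obtain ⟨A, B, hAB, hw, hp⟩ := htt
        refine ⟨invariant A B, mem_exc hAB hp, fun j => ?_⟩
        have hj : j = 0 := Subsingleton.elim _ _
        rw [hj]
        refine hw.trans (mul_le_mul_of_nonneg_left ?_ hR)
        apply Real.rpow_le_rpow (abs_nonneg _) _ hθ
        have := norm_le_pi_norm (fun i => (t i : ℝ)) 0
        rwa [Real.norm_eq_abs] at this)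
    exact key
  · have key := Run7.h95.NP.near_many (k := 2) (by norm_num) hh hε.le hθ hR hσ hσ1 (by
      push_cast
      exact hlt) (ι := ℚ) (Bad := fun j => j ∈ Exc N c) (φ := nd) (W := BadPair N c R θ)
      (fun δ hδ => by
        obtain ⟨C, hC⟩ := hcount δ hδ
        refine ⟨C, fun X hX => ?_⟩
        obtain ⟨f1, f2⟩ := hC X hX
        have hsub : {j : ℚ | j ∈ Exc N c ∧ ∀ l, nd j l ≤ X} ⊆ {j | j ∈ Exc N c ∧ (ht j : ℝ) ≤ X} :=
          fun t ht => ⟨ht.1, nd_le ht.2⟩
        exact ⟨f1.subset hsub, le_trans (by exact_mod_cast Set.ncard_le_ncard hsub f1) f2⟩)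
      (fun t htt => by
        obtain ⟨A, B, hAB, hw1, hw2, hp⟩ := htt
        refine ⟨invariant A B, mem_exc hAB hp, fun l => ?_⟩
        fin_cases l
        · exact hw1
        · exact hw2)
    exact key

end Pool.Agent.Results.MP_cda23d_nt.ProductsOfLinearForms
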